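import Pool.Agent.LibFFBSD.Above

open IsDedekindDomain IsLocalRing
open scoped WithZero

namespace FFBSD

def Place.IsUniformizer {F K : Type} [Field F] [Field K] [Algebra F K] (v : Place F K) (π : K) :
    Prop :=
  π ≠ 0 ∧ v.O.valuation π < 1 ∧ ∀ x, v.O.valuation x < 1 → v.O.valuation x ≤ v.O.valuation π

section

theorem FE_ext {F K : Type} [Field F] [Field K] [Algebra F K] {v w : Place F K}
    (h : v.O = w.O) : v = w := by
  cases v
  cases w
  subst h
  rfl

theorem FE_ne_top {F K : Type} [Field F] [Field K] [Algebra F K] (w : Place F K) : w.O ≠ ⊤ := by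
  intro h
  apply IsDiscreteValuationRing.not_isField w.O
  refine { exists_pair_ne := ⟨0, 1, zero_ne_one⟩, mul_comm := mul_comm, mul_inv_cancel := ?_ }
  intro a ha
  have h2 : ∀ y : K, y ∈ w.O := fun y => by rw [h]; exact ValuationSubring.mem_top _
  have h1 : (a : K)⁻¹ ∈ w.O := h2 _
  refine ⟨⟨(a : K)⁻¹, h1⟩, Subtype.ext ?_⟩
  have ha' : (a : K) ≠ 0 := fun h => ha (Subtype.ext h)
  exact mul_inv_cancel₀ ha'

/-- the maximal ideal as a height one prime -/
noncomputable def FE_p {F K : Type} [Field F] [Field K] [Algebra F K] (v : Place F K) :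
    HeightOneSpectrum v.O where
  asIdeal := maximalIdeal v.O
  isPrime := inferInstance
  ne_bot := IsDiscreteValuationRing.not_a_field v.O

theorem FE_O_eq {F K : Type} [Field F] [Field K] [Algebra F K] (v : Place F K) :
    v.O = ((FE_p v).valuation K).valuationSubring := by
  haveI : Ring.KrullDimLE 1 v.O :=
    Ring.KrullDimLE.mk₁' (fun _ a _ ↦ IsPrime.to_maximal_ideal a)
  refine ValuationSubring.eq_of_le_of_ne_top _ ?_ ?_
  · intro x hx
    exact (FE_p v).valuation_le_one (K := K) ⟨x, hx⟩
  · simp only [ne_eq, Valuation.valuationSubring_eq_top_iff, not_not]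
    infer_instance

variable {F K₀ K : Type} [Field F] [Field K₀] [Field K] [Algebra F K₀] [Algebra F K]
  [Algebra K₀ K]

theorem FE_int_mem (v : Place F K₀) (w : Place F K) (hw : w.Above v) (b : K)
    (hb : IsIntegral v.O b) : b ∈ w.O := by
  obtain ⟨q, hq, hqb⟩ := hb
  have h1 : IsIntegral w.O b := by
    refine ⟨q.map (aboveMap v.O w hw), hq.map _, ?_⟩
    rw [Polynomial.eval₂_map]
    exact hqb
  obtain ⟨y, hy⟩ := (IsIntegrallyClosed.isIntegral_iff (R := w.O)).mp h1
  rw [← hy]
  exact y.2

/-- the integral closure maps to the valuation rings above -/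
def FE_hom (v : Place F K₀) (w : Place F K) (hw : w.Above v) :
    integralClosure v.O K →+* w.O where
  toFun b := ⟨b.1, FE_int_mem v w hw b.1 b.2⟩
  map_one' := rfl
  map_mul' _ _ := rfl
  map_zero' := rfl
  map_add' _ _ := rfl

theorem FE_hom_algebraMap (v : Place F K₀) (w : Place F K) (hw : w.Above v) (a : v.O) :
    FE_hom v w hw (algebraMap v.O (integralClosure v.O K) a) = aboveMap v.O w hw a := rfl

/-- the prime of the integral closure given by a place above `v` -/
def FE_P (v : Place F K₀) (w : Place F K) (hw : w.Above v) : Ideal (integralClosure v.O K) :=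
  (maximalIdeal w.O).comap (FE_hom v w hw)

instance (v : Place F K₀) (w : Place F K) (hw : w.Above v) : (FE_P v w hw).IsPrime :=
  Ideal.comap_isPrime _ _

theorem FE_P_liesOver (v : Place F K₀) (w : Place F K) (hw : w.Above v) :
    (FE_P v w hw).LiesOver (maximalIdeal v.O) := by
  constructor
  ext a
  change _ ↔ FE_hom v w hw (algebraMap v.O (integralClosure v.O K) a) ∈ maximalIdeal w.O
  rw [FE_hom_algebraMap, mem_maximalIdeal, mem_maximalIdeal, mem_nonunits_iff, mem_nonunits_iff,
    aboveMap_isUnit]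

theorem FE_mem_P (v : Place F K₀) (w : Place F K) (hw : w.Above v)
    (b : integralClosure v.O K) : b ∈ FE_P v w hw ↔ w.O.valuation (b : K) < 1 := by
  change FE_hom v w hw b ∈ maximalIdeal w.O ↔ _
  exact ValuationSubring.valuation_lt_one_iff _ _

theorem FE_ne_bot (v : Place F K₀) (P : Ideal (integralClosure v.O K))
    (h : P.LiesOver (maximalIdeal v.O)) : P ≠ ⊥ := by
  rintro rfl
  apply IsDiscreteValuationRing.not_a_field v.O
  rw [h.over]
  ext a
  change algebraMap v.O (integralClosure v.O K) a = 0 ↔ a = 0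
  constructor
  · intro h1
    have h2 : algebraMap K₀ K (a : K₀) = 0 := congrArg Subtype.val h1
    rw [map_eq_zero] at h2
    exact Subtype.ext h2
  · rintro rfl
    exact map_zero _

variable [IsScalarTower F K₀ K] [FiniteDimensional K₀ K] [Algebra.IsSeparable K₀ K]

instance FE_dedekind (v : Place F K₀) : IsDedekindDomain (integralClosure v.O K) :=
  integralClosure.isDedekindDomain v.O K₀ K

instance FE_fraction (v : Place F K₀) : IsFractionRing (integralClosure v.O K) K :=
  integralClosure.isFractionRing_of_finite_extension K₀ K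

instance FE_finite (v : Place F K₀) : Module.Finite v.O (integralClosure v.O K) :=
  IsIntegralClosure.finite v.O K₀ K _

/-- height one prime -/
def FE_hos (v : Place F K₀) (P : Ideal (integralClosure v.O K)) (hP : P.IsPrime)
    (h : P.LiesOver (maximalIdeal v.O)) : HeightOneSpectrum (integralClosure v.O K) :=
  ⟨P, hP, FE_ne_bot v P h⟩

theorem FE_O_eq_above (v : Place F K₀) (w : Place F K) (hw : w.Above v) :
    w.O = ((FE_hos v (FE_P v w hw) inferInstance (FE_P_liesOver v w hw)).valuation
      K).valuationSubring := by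
  rw [← HeightOneSpectrum.valuationSubringAtPrime_eq_valuationSubring]
  symm
  refine ValuationSubring.eq_of_le_of_ne_top _ ?_ (FE_ne_top w)
  rintro x ⟨a, s, hs, rfl⟩
  have hs' : s ∉ FE_P v w hw := hs
  have h1 : IsUnit (FE_hom v w hw s) := by
    by_contra h
    exact hs' h
  obtain ⟨u, hu⟩ := isUnit_iff_exists_inv.mp h1
  have h2 : (s : K) * (u : K) = 1 := congrArg Subtype.val hu
  have h3 : ((s : K))⁻¹ = (u : K) := (eq_inv_of_mul_eq_one_right h2).symm
  change (a : K) * ((s : K))⁻¹ ∈ w.O
  rw [h3]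
  exact w.O.mul_mem _ _ (FE_int_mem v w hw a.1 a.2) u.2


/-- residue field of a valuation ring of `K` with centre `P` on the integral closure -/
theorem FE_residue (v : Place F K₀) (P : Ideal (integralClosure v.O K)) [hPp : P.IsPrime]
    [hP : P.LiesOver (maximalIdeal v.O)]
    (O : ValuationSubring K) (hc : ∀ a : F, algebraMap F K a ∈ O)
    (hB : ∀ b : integralClosure v.O K, (b : K) ∈ O)
    (hker : ∀ b : integralClosure v.O K, O.valuation (b : K) < 1 ↔ b ∈ P)
    (hsurj : ∀ x ∈ O, ∃ b : integralClosure v.O K, O.valuation ((b : K) - x) < 1) :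
    letI : Algebra F O := ((algebraMap F K).codRestrict O hc).toAlgebra
    Module.Finite F (ResidueField O) ∧
      Module.finrank F (ResidueField O) =
        v.deg * Ideal.inertiaDeg' (maximalIdeal v.O) P := by
  letI : Algebra F O := ((algebraMap F K).codRestrict O hc).toAlgebra
  let φ : integralClosure v.O K →+* O :=
    { toFun := fun b => ⟨b.1, hB b⟩
      map_one' := rfl
      map_mul' := fun _ _ => rfl
      map_zero' := rfl
      map_add' := fun _ _ => rfl }
  let ψ : integralClosure v.O K →+* ResidueField O := (residue O).comp φ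
  have hψ : ∀ b, ψ b = residue O (φ b) := fun b => rfl
  have hk : P = RingHom.ker ψ := by
    ext b
    rw [RingHom.mem_ker, hψ, residue_eq_zero_iff, ValuationSubring.valuation_lt_one_iff, ← hker]
    rfl
  have hs : Function.Surjective ψ := by
    intro y
    obtain ⟨x, rfl⟩ := residue_surjective y
    obtain ⟨b, hb⟩ := hsurj x x.2
    refine ⟨b, ?_⟩
    rw [hψ, ← sub_eq_zero, ← map_sub, residue_eq_zero_iff, ValuationSubring.valuation_lt_one_iff]
    exact hb
  let θ : (integralClosure v.O K ⧸ P) ≃+* ResidueField O :=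
    (Ideal.quotEquivOfEq hk).trans (RingHom.quotientKerEquivOfSurjective hs)
  have hθ : ∀ b, θ (Ideal.Quotient.mk P b) = ψ b := fun b => rfl
  letI algA : Algebra (v.O ⧸ maximalIdeal v.O) (ResidueField O) :=
    (θ.toRingHom.comp (algebraMap (v.O ⧸ maximalIdeal v.O)
      (integralClosure v.O K ⧸ P))).toAlgebra
  have halg : ∀ a : v.O ⧸ maximalIdeal v.O, algebraMap _ (ResidueField O) a =
      θ (algebraMap _ (integralClosure v.O K ⧸ P) a) := fun a => rfl
  let e : (integralClosure v.O K ⧸ P) ≃ₗ[v.O ⧸ maximalIdeal v.O] ResidueField O :=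
    { θ with
      map_smul' := by
        intro a x
        change θ (a • x) = a • θ x
        rw [Algebra.smul_def, Algebra.smul_def, map_mul]
        rfl }
  have h1 : Module.Finite (v.O ⧸ maximalIdeal v.O) (integralClosure v.O K ⧸ P) := inferInstance
  have h2 : Module.Finite (v.O ⧸ maximalIdeal v.O) (ResidueField O) := Module.Finite.equiv e
  letI algB : Algebra v.κ (ResidueField O) := algA
  have h2' : Module.Finite v.κ (ResidueField O) := h2
  have h3 : IsScalarTower F v.κ (ResidueField O) := by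
    refine IsScalarTower.of_algebraMap_eq (R := F) (S := v.κ) (A := ResidueField O) fun a => ?_
    change residue O (algebraMap F O a) =
      residue O (φ (algebraMap v.O (integralClosure v.O K) (algebraMap F v.O a)))
    congr 1
    apply Subtype.ext
    change algebraMap F K a = algebraMap K₀ K (algebraMap F K₀ a)
    rw [← IsScalarTower.algebraMap_apply]
  have h4 : Module.Finite F v.κ := v.fin
  refine ⟨Module.Finite.trans v.κ _, ?_⟩
  rw [← Module.finrank_mul_finrank F v.κ (ResidueField O)]
  have h5 : Module.finrank v.κ (ResidueField O) = Ideal.inertiaDeg' (maximalIdeal v.O) P := by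
    rw [Ideal.inertiaDeg'_algebraMap]
    exact e.finrank_eq.symm
  rw [h5]
  rfl

theorem FE_lt {v : Valuation K ℤᵐ⁰} (x : K) :
    v.valuationSubring.valuation x < 1 ↔ v x < 1 :=
  (v.isEquiv_valuation_valuationSubring.lt_one_iff_lt_one).symm

theorem FE_val_const (v : Place F K₀) (P : Ideal (integralClosure v.O K)) (hPp : P.IsPrime)
    (hP : P.LiesOver (maximalIdeal v.O)) (a : F) :
    algebraMap F K a ∈ ((FE_hos v P hPp hP).valuation K).valuationSubring := by
  have h1 : algebraMap F K a = algebraMap (integralClosure v.O K) K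
      (algebraMap v.O (integralClosure v.O K) (algebraMap F v.O a)) := by
    change algebraMap F K a = algebraMap K₀ K (algebraMap F K₀ a)
    rw [← IsScalarTower.algebraMap_apply]
  rw [h1]
  exact (FE_hos v P hPp hP).valuation_le_one _

theorem FE_residue' (v : Place F K₀) (P : Ideal (integralClosure v.O K)) (hPp : P.IsPrime)
    (hP : P.LiesOver (maximalIdeal v.O)) :
    letI : Algebra F ((FE_hos v P hPp hP).valuation K).valuationSubring :=
      ((algebraMap F K).codRestrict _ (FE_val_const v P hPp hP)).toAlgebra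
    Module.Finite F (ResidueField ((FE_hos v P hPp hP).valuation K).valuationSubring) ∧
      Module.finrank F (ResidueField ((FE_hos v P hPp hP).valuation K).valuationSubring) =
        v.deg * Ideal.inertiaDeg' (maximalIdeal v.O) P := by
  apply FE_residue v P
  · intro b
    exact (FE_hos v P hPp hP).valuation_le_one b
  · intro b
    rw [FE_lt]
    exact (FE_hos v P hPp hP).valuation_lt_one_iff_mem b
  · intro x hx
    obtain ⟨a, ha⟩ := (FE_hos v P hPp hP).exists_valuation_sub_lt_of_integer (K := K) (x := x) hx 1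
    refine ⟨a, ?_⟩
    rw [FE_lt]
    simpa using ha

/-- the place of a prime over `v` -/
noncomputable def FE_place (v : Place F K₀) (P : Ideal (integralClosure v.O K)) (hPp : P.IsPrime)
    (hP : P.LiesOver (maximalIdeal v.O)) : Place F K where
  O := ((FE_hos v P hPp hP).valuation K).valuationSubring
  dvr := inferInstance
  const := FE_val_const v P hPp hP
  fin := (FE_residue' v P hPp hP).1

theorem FE_place_deg (v : Place F K₀) (P : Ideal (integralClosure v.O K)) (hPp : P.IsPrime)
    (hP : P.LiesOver (maximalIdeal v.O)) :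
    (FE_place v P hPp hP).deg = v.deg * Ideal.inertiaDeg' (maximalIdeal v.O) P :=
  (FE_residue' v P hPp hP).2

theorem FE_val_pow (v : Place F K₀) (P : Ideal (integralClosure v.O K)) (hPp : P.IsPrime)
    (hP : P.LiesOver (maximalIdeal v.O)) (x : K₀) :
    (FE_p v).valuation K₀ x ^ (Ideal.ramificationIdx' (maximalIdeal v.O) P) =
      (FE_hos v P hPp hP).valuation K (algebraMap K₀ K x) := by
  haveI : (FE_hos v P hPp hP).asIdeal.LiesOver (FE_p v).asIdeal := hP
  exact HeightOneSpectrum.valuation_liesOver K (FE_p v) (FE_hos v P hPp hP) x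

theorem FE_e_ne_zero (v : Place F K₀) (P : Ideal (integralClosure v.O K)) (hPp : P.IsPrime)
    (hP : P.LiesOver (maximalIdeal v.O)) :
    Ideal.ramificationIdx' (maximalIdeal v.O) P ≠ 0 := by
  haveI := hPp
  haveI := hP
  exact Ideal.IsDedekindDomain.ramificationIdx'_ne_zero_of_liesOver P
    (IsDiscreteValuationRing.not_a_field v.O)

theorem FE_place_above (v : Place F K₀) (P : Ideal (integralClosure v.O K)) (hPp : P.IsPrime)
    (hP : P.LiesOver (maximalIdeal v.O)) : (FE_place v P hPp hP).Above v := by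
  intro x
  have h1 : x ∈ v.O ↔ (FE_p v).valuation K₀ x ≤ 1 := by
    conv_lhs => rw [FE_O_eq v]
    exact Valuation.mem_valuationSubring_iff _ _
  rw [h1, ← pow_le_one_iff (FE_e_ne_zero v P hPp hP), FE_val_pow v P hPp hP x]
  exact Valuation.mem_valuationSubring_iff _ _

theorem FE_equiv {L : Type} [Field L] (O : ValuationSubring L) (ν : Valuation L ℤᵐ⁰)
    (h : O = ν.valuationSubring) : O.valuation.IsEquiv ν := by
  rw [Valuation.isEquiv_iff_valuationSubring, ValuationSubring.valuationSubring_valuation, h]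

theorem FE_unif {R L : Type} [CommRing R] [IsDedekindDomain R] [Field L] [Algebra R L]
    [IsFractionRing R L] (H : HeightOneSpectrum R) (O : ValuationSubring L)
    (h : O = (H.valuation L).valuationSubring) (π : L)
    (h2 : O.valuation π < 1) (h3 : ∀ x, O.valuation x < 1 → O.valuation x ≤ O.valuation π) :
    H.valuation L π = WithZero.exp (-1 : ℤ) := by
  have he := FE_equiv O _ h
  obtain ⟨x, hx⟩ := H.valuation_exists_uniformizer L
  have hx1 : H.valuation L x < 1 := by
    rw [hx, ← WithZero.exp_zero, WithZero.exp_lt_exp]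
    norm_num
  have h4 : H.valuation L x ≤ H.valuation L π := by
    rw [← he x π]
    exact h3 x ((he.lt_one_iff_lt_one).mpr hx1)
  have h5 : H.valuation L π < 1 := (he.lt_one_iff_lt_one).mp h2
  rw [hx] at h4
  have h6 : H.valuation L π ≠ 0 := by
    intro h6
    rw [h6] at h4
    exact absurd h4 (by simp)
  rw [← WithZero.exp_log h6] at h4 h5 ⊢
  rw [← WithZero.exp_zero, WithZero.exp_lt_exp] at h5
  rw [WithZero.exp_le_exp] at h4
  rw [WithZero.exp_inj]
  omega

theorem FE_w_eq (v : Place F K₀) (w : Place F K) (hw : w.Above v) :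
    w = FE_place v (FE_P v w hw) inferInstance (FE_P_liesOver v w hw) :=
  FE_ext (FE_O_eq_above v w hw)

theorem FE_P_eq (v : Place F K₀) (P : Ideal (integralClosure v.O K)) (hPp : P.IsPrime)
    (hP : P.LiesOver (maximalIdeal v.O)) :
    FE_P v (FE_place v P hPp hP) (FE_place_above v P hPp hP) = P := by
  ext b
  rw [FE_mem_P]
  change ((FE_hos v P hPp hP).valuation K).valuationSubring.valuation (b : K) < 1 ↔ _
  rw [FE_lt]
  exact (FE_hos v P hPp hP).valuation_lt_one_iff_mem b

theorem FE_deg_pos {L : Type} [Field L] [Algebra F L] (w : Place F L) : 0 < w.deg := by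
  haveI : Module.Finite F w.κ := w.fin
  exact Module.finrank_pos

/-- ramification index of a place above `v` -/
noncomputable def FE_e (v : Place F K₀) (w : Place F K) : ℕ := by
  classical
  exact if h : w.Above v then Ideal.ramificationIdx' (maximalIdeal v.O) (FE_P v w h) else 0

theorem FE_e_eq (v : Place F K₀) (w : Place F K) (h : w.Above v) :
    FE_e v w = Ideal.ramificationIdx' (maximalIdeal v.O) (FE_P v w h) := by
  unfold FE_e
  rw [dif_pos h]

theorem FE_main (v : Place F K₀) :
    ∃ T : Finset (Place F K), (∀ w, w ∈ T ↔ w.Above v) ∧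
      (∀ w ∈ T, 0 < FE_e v w) ∧ (∀ w ∈ T, v.deg ∣ w.deg) ∧
      (∑ w ∈ T, FE_e v w * w.deg = Module.finrank K₀ K * v.deg) ∧
      (∀ w ∈ T, ∀ (π : K₀) (t : K), v.IsUniformizer π → w.IsUniformizer t →
        w.O.valuation (algebraMap K₀ K π) = w.O.valuation t ^ FE_e v w) ∧
      (∀ w ∈ T, ∀ (π : K₀) (t : K) (m : ℕ), v.IsUniformizer π →
        w.O.valuation t ^ m = w.O.valuation (algebraMap K₀ K π) → m ≤ FE_e v w) := by
  classical
  have hp0 : maximalIdeal v.O ≠ ⊥ := IsDiscreteValuationRing.not_a_field v.O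
  let S := IsDedekindDomain.primesOverFinset (maximalIdeal v.O) (integralClosure v.O K)
  have hS : ∀ P, P ∈ S ↔ P.IsPrime ∧ P.LiesOver (maximalIdeal v.O) := fun P =>
    IsDedekindDomain.mem_primesOverFinset_iff hp0 _
  let f : S → Place F K := fun P => FE_place v P.1 ((hS P.1).mp P.2).1 ((hS P.1).mp P.2).2
  have hf : ∀ P : S, (f P).Above v := fun P => FE_place_above v P.1 _ _
  have hfP : ∀ P : S, FE_P v (f P) (hf P) = P.1 := fun P => FE_P_eq v P.1 _ _
  have hinj : Function.Injective f := by
    intro P Q h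
    apply Subtype.ext
    rw [← hfP P, ← hfP Q]
    congr 1
  let T := S.attach.image f
  have hT : ∀ w, w ∈ T ↔ w.Above v := by
    intro w
    constructor
    · intro hw
      obtain ⟨P, -, rfl⟩ := Finset.mem_image.mp hw
      exact hf P
    · intro hw
      refine Finset.mem_image.mpr ⟨⟨FE_P v w hw, (hS _).mpr ⟨inferInstance,
        FE_P_liesOver v w hw⟩⟩, Finset.mem_attach _ _, ?_⟩
      exact (FE_w_eq v w hw).symm
  refine ⟨T, hT, ?_, ?_, ?_, ?_, ?_⟩
  · intro w hw
    rw [FE_e_eq v w ((hT w).mp hw)]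
    exact Nat.pos_of_ne_zero (FE_e_ne_zero v _ inferInstance (FE_P_liesOver v w _))
  · intro w hw
    obtain ⟨P, -, rfl⟩ := Finset.mem_image.mp hw
    rw [show (f P).deg = v.deg * Ideal.inertiaDeg' (maximalIdeal v.O) P.1 from
      FE_place_deg v P.1 _ _]
    exact dvd_mul_right _ _
  · have h1 : ∑ w ∈ T, FE_e v w * w.deg = ∑ P ∈ S.attach, FE_e v (f P) * (f P).deg :=
      Finset.sum_image fun P _ Q _ h => hinj h
    rw [h1]
    have h2 : ∀ P ∈ S.attach, FE_e v (f P) * (f P).deg =
        (fun P : Ideal (integralClosure v.O K) => v.deg *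
          (Ideal.ramificationIdx' (maximalIdeal v.O) P *
            Ideal.inertiaDeg' (maximalIdeal v.O) P)) P.1 := by
      intro P _
      rw [FE_e_eq v (f P) (hf P), hfP P,
        show (f P).deg = v.deg * Ideal.inertiaDeg' (maximalIdeal v.O) P.1 from
          FE_place_deg v P.1 _ _]
      ring
    rw [Finset.sum_congr rfl h2, Finset.sum_attach S (fun P => v.deg *
          (Ideal.ramificationIdx' (maximalIdeal v.O) P *
            Ideal.inertiaDeg' (maximalIdeal v.O) P)), ← Finset.mul_sum,
      Ideal.sum_ramification_inertia (integralClosure v.O K) K₀ K hp0, mul_comm]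
  · intro w hw π t hπ ht
    have hwv := (hT w).mp hw
    rw [FE_e_eq v w hwv, ← map_pow, (FE_equiv _ _ (FE_O_eq_above v w hwv)).val_eq,
      map_pow, FE_unif _ w.O (FE_O_eq_above v w hwv) t ht.2.1 ht.2.2, ← FE_val_pow,
      FE_unif _ v.O (FE_O_eq v) π hπ.2.1 hπ.2.2]
  · intro w hw π t m hπ ht
    have hwv := (hT w).mp hw
    have hpos : FE_e v w ≠ 0 := by
      rw [FE_e_eq v w hwv]
      exact FE_e_ne_zero v _ inferInstance (FE_P_liesOver v w hwv)
    rw [← map_pow, (FE_equiv _ _ (FE_O_eq_above v w hwv)).val_eq,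
      map_pow, ← FE_val_pow,
      FE_unif _ v.O (FE_O_eq v) π hπ.2.1 hπ.2.2, ← FE_e_eq v w hwv] at ht
    set ν := (FE_hos v (FE_P v w hwv) inferInstance (FE_P_liesOver v w hwv)).valuation K
    rcases Nat.eq_zero_or_pos m with hm | hm
    · omega
    have ht0 : ν t ≠ 0 := by
      intro h
      rw [h, zero_pow hm.ne'] at ht
      exact pow_ne_zero _ WithZero.exp_ne_zero ht.symm
    rw [← WithZero.exp_log ht0, ← WithZero.exp_nsmul, ← WithZero.exp_nsmul, WithZero.exp_inj] at ht
    have h1 : (m : ℤ) ∣ (FE_e v w : ℤ) := by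
      refine ⟨-WithZero.log (ν t), ?_⟩
      simp only [nsmul_eq_mul] at ht
      linarith
    exact Nat.le_of_dvd (Nat.pos_of_ne_zero hpos) (Int.natCast_dvd_natCast.mp h1)

/-- the fundamental equality -/
theorem fundamental_equality (v : Place F K₀) :
    ∃ (T : Finset (Place F K)) (e : Place F K → ℕ), (∀ w, w ∈ T ↔ w.Above v) ∧
      (∀ w ∈ T, 0 < e w) ∧ (∀ w ∈ T, v.deg ∣ w.deg) ∧
      (∑ w ∈ T, e w * w.deg = Module.finrank K₀ K * v.deg) ∧
      (∀ w ∈ T, ∀ (π : K₀) (t : K), v.IsUniformizer π → w.IsUniformizer t →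
        w.O.valuation (algebraMap K₀ K π) = w.O.valuation t ^ e w) := by
  obtain ⟨T, h1, h2, h3, h4, h5, -⟩ := FE_main (K := K) v
  exact ⟨T, FE_e v, h1, h2, h3, h4, h5⟩

theorem FE_unique (v : Place F K₀) (w : Place F K) (hw : w.Above v)
    (h : Module.finrank K₀ K * v.deg ≤ FE_e v w * w.deg) :
    FE_e v w * w.deg = Module.finrank K₀ K * v.deg ∧ ∀ w' : Place F K, w'.Above v → w' = w := by
  obtain ⟨T, h1, h2, h3, h4, -, -⟩ := FE_main (K := K) v
  classical
  have hwT := (h1 w).mpr hw
  have h5 : FE_e v w * w.deg ≤ ∑ w ∈ T, FE_e v w * w.deg :=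
    Finset.single_le_sum (f := fun w => FE_e v w * w.deg) (fun _ _ => Nat.zero_le _) hwT
  refine ⟨by omega, ?_⟩
  intro w' hw'
  by_contra hne
  have hw'T := (h1 w').mpr hw'
  have h6 : ∑ x ∈ {w, w'}, FE_e v x * x.deg ≤ ∑ x ∈ T, FE_e v x * x.deg :=
    Finset.sum_le_sum_of_subset (by
      intro x hx
      rcases Finset.mem_insert.mp hx with rfl | hx
      · exact hwT
      · rw [Finset.mem_singleton.mp hx]
        exact hw'T)
  rw [Finset.sum_pair (Ne.symm hne)] at h6
  have h7 : 0 < FE_e v w' * w'.deg := Nat.mul_pos (h2 w' hw'T) (FE_deg_pos w')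
  omega

theorem unique_of_deg [Finite F] (v : Place F K₀) (w : Place F K) (hw : w.Above v)
    (h : Module.finrank K₀ K * v.deg ≤ w.deg) :
    w.deg = Module.finrank K₀ K * v.deg ∧ ∀ w' : Place F K, w'.Above v → w' = w := by
  obtain ⟨T, h1, h2, -⟩ := FE_main (K := K) v
  have h3 := h2 w ((h1 w).mpr hw)
  have h4 : w.deg ≤ FE_e v w * w.deg := Nat.le_mul_of_pos_left _ h3
  obtain ⟨h5, h6⟩ := FE_unique v w hw (h.trans h4)
  exact ⟨by omega, h6⟩

theorem unique_of_ram [Finite F] (v : Place F K₀) (w : Place F K) (hw : w.Above v)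
    (π : K₀) (hπ : v.IsUniformizer π) (t : K) (m : ℕ)
    (ht : w.O.valuation t ^ m = w.O.valuation (algebraMap K₀ K π))
    (h : Module.finrank K₀ K ≤ m) :
    w.deg = v.deg ∧ ∀ w' : Place F K, w'.Above v → w' = w := by
  obtain ⟨T, h1, h2, h3, h4, -, h5⟩ := FE_main (K := K) v
  have hwT := (h1 w).mpr hw
  have h6 : m ≤ FE_e v w := h5 w hwT π t m hπ ht
  have h7 : v.deg ≤ w.deg := Nat.le_of_dvd (FE_deg_pos w) (h3 w hwT)
  have h8 : Module.finrank K₀ K * v.deg ≤ FE_e v w * w.deg :=
    Nat.mul_le_mul (h.trans h6) h7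
  obtain ⟨h9, h10⟩ := FE_unique v w hw h8
  refine ⟨?_, h10⟩
  have h11 : FE_e v w * w.deg ≤ FE_e v w * v.deg := by
    rw [h9]
    exact Nat.mul_le_mul_right _ (h.trans h6)
  exact le_antisymm (Nat.le_of_mul_le_mul_left h11 (h2 w hwT)) h7

end

end FFBSD
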