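import Pool.Agent.LibFFBSD.RedType

/-!
# Places of `K` above places of a subfield `K₀`; reduction types under extension
-/

open Polynomial WeierstrassCurve IsLocalRing IsDiscreteValuationRing

namespace FFBSD

variable {F K₀ K : Type} [Field F] [Field K₀] [Field K] [Algebra F K₀] [Algebra F K]
  [Algebra K₀ K]

/-- the place `w` of `K` lies above the place `v` of `K₀` -/
def Place.Above (w : Place F K) (v : Place F K₀) : Prop :=
  ∀ x : K₀, algebraMap K₀ K x ∈ w.O ↔ x ∈ v.O

section restrict

variable (A : ValuationSubring K₀) (w : Place F K)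
  (hA : ∀ x : K₀, algebraMap K₀ K x ∈ w.O ↔ x ∈ A)

/-- the map of valuation rings -/
def aboveMap : A →+* w.O where
  toFun x := ⟨algebraMap K₀ K x.1, (hA x.1).mpr x.2⟩
  map_one' := Subtype.ext (by simp)
  map_mul' x y := Subtype.ext (by simp)
  map_zero' := Subtype.ext (by simp)
  map_add' x y := Subtype.ext (by simp)

theorem aboveMap_val (x : A) : (aboveMap A w hA x : K) = algebraMap K₀ K (x : K₀) := rfl

theorem aboveMap_isUnit (x : A) : IsUnit (aboveMap A w hA x) ↔ IsUnit x := by
  constructor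
  · intro h
    obtain ⟨y, hy⟩ := isUnit_iff_exists_inv.mp h
    have h1 : algebraMap K₀ K (x : K₀) * (y : K) = 1 := congrArg Subtype.val hy
    have hx0 : (x : K₀) ≠ 0 := by
      intro h0
      rw [h0, map_zero, zero_mul] at h1
      exact zero_ne_one h1
    have h2 : (y : K) = algebraMap K₀ K (x : K₀)⁻¹ := by
      rw [map_inv₀]
      exact eq_inv_of_mul_eq_one_right h1
    have h3 : (x : K₀)⁻¹ ∈ A := by
      rw [← hA, ← h2]
      exact y.2
    exact isUnit_iff_exists_inv.mpr ⟨⟨(x : K₀)⁻¹, h3⟩, Subtype.ext (mul_inv_cancel₀ hx0)⟩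
  · intro h
    exact h.map _

theorem aboveMap_injective : Function.Injective (aboveMap A w hA) := by
  intro x y h
  apply Subtype.ext
  exact (algebraMap K₀ K).injective (congrArg Subtype.val h)

include w hA in
/-- the restriction of a place is a discrete valuation ring if it is not everything -/
theorem above_dvr (hne : A ≠ ⊤) : IsDiscreteValuationRing A := by
  classical
  set j := aboveMap A w hA with hj
  have hj0 : ∀ x : A, x ≠ 0 → j x ≠ 0 := fun x hx h =>
    hx (aboveMap_injective A w hA (by rw [← hj, h, map_zero]))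
  -- a nonzero nonunit
  obtain ⟨y, hy0, hyu⟩ : ∃ y : A, y ≠ 0 ∧ ¬ IsUnit y := by
    obtain ⟨x, hx⟩ : ∃ x : K₀, x ∉ A := by
      by_contra hcon
      push Not at hcon
      exact hne (SetLike.ext fun x => ⟨fun _ => ValuationSubring.mem_top x, fun _ => hcon x⟩)
    have hx0 : x ≠ 0 := fun h => hx (h ▸ A.zero_mem)
    have hxi : x⁻¹ ∈ A := (A.mem_or_inv_mem x).resolve_left hx
    refine ⟨⟨x⁻¹, hxi⟩, fun h => inv_ne_zero hx0 (congrArg Subtype.val h), fun hu => ?_⟩
    obtain ⟨z, hz⟩ := isUnit_iff_exists_inv.mp hu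
    have h1 : x⁻¹ * (z : K₀) = 1 := congrArg Subtype.val hz
    have h2 : (z : K₀) = x := by
      have := eq_inv_of_mul_eq_one_right h1
      rwa [inv_inv] at this
    exact hx (h2 ▸ z.2)
  -- valuation of elements of `A`
  have hval : ∀ x : A, x ≠ 0 → ∃ n : ℕ, addVal w.O (j x) = n := by
    intro x hx
    have h1 : addVal w.O (j x) ≠ ⊤ := by
      rw [Ne, addVal_eq_top_iff]
      exact hj0 x hx
    exact ⟨_, (ENat.natCast_toNat h1).symm⟩
  have hunit : ∀ x : A, x ≠ 0 → (addVal w.O (j x) = 0 ↔ IsUnit x) := by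
    intro x hx
    rw [← aboveMap_isUnit A w hA, addVal_eq_zero_iff]
  let Q : ℕ → Prop := fun n => ∃ x : A, x ≠ 0 ∧ ¬ IsUnit x ∧ addVal w.O (j x) = n
  have hQ : ∃ n, Q n := by
    obtain ⟨n, hn⟩ := hval y hy0
    exact ⟨n, y, hy0, hyu, hn⟩
  obtain ⟨ϖ, hϖ0, hϖu, hϖ⟩ := Nat.find_spec hQ
  set e := Nat.find hQ with he
  have hmin : ∀ x : A, x ≠ 0 → ¬ IsUnit x → ∀ n : ℕ, addVal w.O (j x) = n → e ≤ n :=
    fun x hx hu n hn => Nat.find_min' hQ ⟨x, hx, hu, hn⟩
  have he0 : 0 < e := by
    rcases Nat.eq_zero_or_pos e with h | h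
    · exfalso
      rw [h, Nat.cast_zero] at hϖ
      exact hϖu ((hunit ϖ hϖ0).mp hϖ)
    · exact h
  -- division by the uniformizer
  have hdiv : ∀ x : A, x ≠ 0 → ¬ IsUnit x → ϖ ∣ x := by
    intro x hx hu
    obtain ⟨n, hn⟩ := hval x hx
    have hle : addVal w.O (j ϖ) ≤ addVal w.O (j x) := by
      rw [hϖ, hn]
      exact_mod_cast hmin x hx hu n hn
    obtain ⟨c, hc⟩ := (addVal_le_iff_dvd).mp hle
    have hϖK : (ϖ : K₀) ≠ 0 := fun h => hϖ0 (Subtype.ext h)
    have h1 : algebraMap K₀ K (x : K₀) = algebraMap K₀ K (ϖ : K₀) * (c : K) :=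
      congrArg Subtype.val hc
    have h2 : (c : K) = algebraMap K₀ K ((x : K₀) / (ϖ : K₀)) := by
      rw [map_div₀, h1, mul_div_cancel_left₀ _ ((_root_.map_ne_zero _).mpr hϖK)]
    have h3 : (x : K₀) / (ϖ : K₀) ∈ A := by
      rw [← hA, ← h2]
      exact c.2
    exact ⟨⟨_, h3⟩, Subtype.ext (by
      change (x : K₀) = (ϖ : K₀) * ((x : K₀) / (ϖ : K₀))
      rw [mul_div_cancel₀ _ hϖK])⟩
  have hirr : Irreducible ϖ := by
    refine ⟨hϖu, fun a b hab => ?_⟩
    by_contra hcon
    push Not at hcon
    obtain ⟨ha, hb⟩ := hcon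
    have ha0 : a ≠ 0 := by rintro rfl; rw [zero_mul] at hab; exact hϖ0 hab
    have hb0 : b ≠ 0 := by rintro rfl; rw [mul_zero] at hab; exact hϖ0 hab
    obtain ⟨n, hn⟩ := hval a ha0
    obtain ⟨m, hm⟩ := hval b hb0
    have h1 := hmin a ha0 ha n hn
    have h2 := hmin b hb0 hb m hm
    rw [hab, map_mul, addVal_mul, hn, hm] at hϖ
    have h3 : n + m = e := by exact_mod_cast hϖ
    omega
  have hfac : ∀ n : ℕ, ∀ x : A, x ≠ 0 → addVal w.O (j x) = n → ∃ k, Associated (ϖ ^ k) x := by
    intro n
    induction n using Nat.strong_induction_on with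
    | _ n ih =>
      intro x hx hn
      by_cases hu : IsUnit x
      · exact ⟨0, by rw [pow_zero]; exact (associated_one_iff_isUnit.mpr hu).symm⟩
      · obtain ⟨z, hz⟩ := hdiv x hx hu
        have hz0 : z ≠ 0 := by rintro rfl; rw [mul_zero] at hz; exact hx hz
        obtain ⟨m, hm⟩ := hval z hz0
        have h1 : e + m = n := by
          have h2 : addVal w.O (j x) = addVal w.O (j ϖ) + addVal w.O (j z) := by
            rw [hz, map_mul, addVal_mul]
          rw [hn, hϖ, hm] at h2
          exact_mod_cast h2.symm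
        obtain ⟨k, hk⟩ := ih m (by omega) z hz0 hm
        refine ⟨k + 1, ?_⟩
        rw [pow_succ', hz]
        exact Associated.mul_left ϖ hk
  exact IsDiscreteValuationRing.ofHasUnitMulPowIrreducibleFactorization
    ⟨ϖ, hirr, fun {x} hx => by
      obtain ⟨n, hn⟩ := hval x hx
      exact hfac n x hx hn⟩

end restrict

/-- A place of `K` either contains `K₀` or lies above a place of `K₀`. -/
theorem above_or_top [IsScalarTower F K₀ K] (w : Place F K) :
    (∀ x : K₀, algebraMap K₀ K x ∈ w.O) ∨ ∃ v : Place F K₀, w.Above v := by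
  classical
  by_cases htop : ∀ x : K₀, algebraMap K₀ K x ∈ w.O
  · exact Or.inl htop
  right
  set A : ValuationSubring K₀ := w.O.comap (algebraMap K₀ K) with hAdef
  have hA : ∀ x : K₀, algebraMap K₀ K x ∈ w.O ↔ x ∈ A := fun x => Iff.rfl
  have hne : A ≠ ⊤ := by
    intro h
    apply htop
    intro x
    rw [hA, h]
    exact ValuationSubring.mem_top x
  have hdvr : IsDiscreteValuationRing A := above_dvr A w hA hne
  have hconst : ∀ a : F, algebraMap F K₀ a ∈ A := by
    intro a
    rw [← hA, ← IsScalarTower.algebraMap_apply]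
    exact w.const a
  let _ : Algebra F A := ((algebraMap F K₀).codRestrict A hconst).toAlgebra
  let j : A →+* w.O := aboveMap A w hA
  have hlocal : IsLocalHom j := ⟨fun x hx => (aboveMap_isUnit A w hA x).mp hx⟩
  have hjF : ∀ a : F, j (algebraMap F A a) = algebraMap F w.O a := by
    intro a
    apply Subtype.ext
    change algebraMap K₀ K (algebraMap F K₀ a) = algebraMap F K a
    rw [← IsScalarTower.algebraMap_apply]
  let φ : ResidueField A →ₗ[F] ResidueField w.O :=
    { toFun := ResidueField.map j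
      map_add' := map_add _
      map_smul' := by
        intro a x
        obtain ⟨x, rfl⟩ := residue_surjective x
        rw [RingHom.id_apply, Algebra.smul_def, Algebra.smul_def, map_mul]
        congr 1
        change ResidueField.map j (residue A (algebraMap F A a)) =
          residue w.O (algebraMap F w.O a)
        rw [ResidueField.map_residue, hjF] }
  have hφ : Function.Injective φ := (ResidueField.map j).injective
  have hfin : Module.Finite F (ResidueField A) := Module.Finite.of_injective φ hφ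
  exact ⟨⟨A, hdvr, hconst, hfin⟩, hA⟩

section reduction

/-- good reduction is inherited -/
theorem good_of_above (W : WeierstrassCurve K₀) (w : Place F K) (v : Place F K₀)
    (h : w.Above v) (hg : (W.minimal v.O).HasGoodReduction v.O) :
    ((W.map (algebraMap K₀ K)).minimal w.O).HasGoodReduction w.O := by
  obtain ⟨C, hC⟩ : ∃ C : VariableChange K₀, C • W = W.minimal v.O := ⟨_, rfl⟩
  set I := integralModel v.O (W.minimal v.O) with hI
  have hI' : I⁄K₀ = W.minimal v.O := baseChange_integralModel_eq v.O (W.minimal v.O)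
  let j : v.O →+* w.O := aboveMap v.O w h
  have hmodel : (C.map (algebraMap K₀ K)) • (W.map (algebraMap K₀ K)) = (I.map j)⁄K := by
    rw [WeierstrassCurve.map_variableChange, hC, ← hI', baseChange, baseChange,
      WeierstrassCurve.map_map, WeierstrassCurve.map_map]
    rfl
  refine good_of_model _ _ _ hmodel ?_
  rw [map_Δ]
  apply IsUnit.map
  rw [← val_eq_one_iff (K := K₀), integralModel_Δ_eq]
  exact hg.goodReduction

/-- multiplicative reduction is inherited -/
theorem mult_of_above (W : WeierstrassCurve K₀) (hΔ : W.Δ ≠ 0) (w : Place F K) (v : Place F K₀)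
    (h : w.Above v) (hg : (W.minimal v.O).HasMultiplicativeReduction v.O) :
    ((W.map (algebraMap K₀ K)).minimal w.O).HasMultiplicativeReduction w.O := by
  obtain ⟨C, hC⟩ : ∃ C : VariableChange K₀, C • W = W.minimal v.O := ⟨_, rfl⟩
  set I := integralModel v.O (W.minimal v.O) with hI
  have hI' : I⁄K₀ = W.minimal v.O := baseChange_integralModel_eq v.O (W.minimal v.O)
  let j : v.O →+* w.O := aboveMap v.O w h
  have hmodel : (C.map (algebraMap K₀ K)) • (W.map (algebraMap K₀ K)) = (I.map j)⁄K := by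
    rw [WeierstrassCurve.map_variableChange, hC, ← hI', baseChange, baseChange,
      WeierstrassCurve.map_map, WeierstrassCurve.map_map]
    rfl
  have hI0 : I.Δ ≠ 0 := by
    intro h0
    have h1 : (W.minimal v.O).Δ = 0 := by
      rw [← integralModel_Δ_eq v.O (W.minimal v.O), ← hI, h0, map_zero]
    rw [← hC, variableChange_Δ] at h1
    rcases mul_eq_zero.mp h1 with h2 | h2
    · exact (Units.ne_zero _) (pow_eq_zero_iff (by norm_num) |>.mp h2)
    · exact hΔ h2
  refine mult_of_model _ _ _ hmodel ?_ ?_ ?_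
  · rw [map_Δ, aboveMap_isUnit, ← val_lt_one_iff (K := K₀), integralModel_Δ_eq]
    exact hg.badReduction
  · rw [map_Δ]
    intro h0
    exact hI0 (aboveMap_injective v.O w h (by rw [h0, map_zero]))
  · rw [map_c₄]
    apply IsUnit.map
    rw [← val_eq_one_iff (K := K₀), integralModel_c₄_eq]
    exact hg.multiplicativeReduction

/-- good reduction at the places which contain `K₀` -/
theorem good_of_top (W : WeierstrassCurve K₀) (hΔ : W.Δ ≠ 0) (w : Place F K)
    (h : ∀ x : K₀, algebraMap K₀ K x ∈ w.O) :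
    ((W.map (algebraMap K₀ K)).minimal w.O).HasGoodReduction w.O := by
  let j : K₀ →+* w.O := (algebraMap K₀ K).codRestrict w.O h
  have hmodel : (1 : VariableChange K) • (W.map (algebraMap K₀ K)) = (W.map j)⁄K := by
    rw [one_smul, baseChange, WeierstrassCurve.map_map]
    rfl
  refine good_of_model _ _ _ hmodel ?_
  rw [map_Δ]
  exact (isUnit_iff_ne_zero.mpr hΔ).map j

end reduction

end FFBSD
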