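import Pool.Agent.LibFFBSD.Euler

/-!
# Analytic 2-descent: the bound for the order of vanishing at `T = 1/q`
-/

open Polynomial WeierstrassCurve IsLocalRing
open scoped PowerSeries.WithPiTopology

namespace FFBSD

variable {F K : Type} [Field F] [Field K] [Algebra F K]

open Classical in
/-- the contribution of `v` to the bound -/
noncomputable def contrib (W : WeierstrassCurve K) (v : Place F K) : ℕ :=
  if (W.minimal v.O).HasGoodReduction v.O then 0
  else if (W.minimal v.O).HasMultiplicativeReduction v.O then v.weight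
  else 2 * v.weight

theorem exists_odd_factor (d : ℕ) (hd : 0 < d) : ∃ m, Odd m ∧ d = 2 ^ padicValNat 2 d * m := by
  obtain ⟨k, m, hm, hdm⟩ := Nat.exists_eq_two_pow_mul_odd hd.ne'
  refine ⟨m, hm, ?_⟩
  have hm0 : m ≠ 0 := by rintro rfl; simp at hm
  have h1 : padicValNat 2 d = k := by
    rw [hdm, padicValNat.mul (by positivity) hm0, padicValNat.prime_pow,
      padicValNat.eq_zero_of_not_dvd, add_zero]
    rw [← even_iff_two_dvd, Nat.not_even_iff_odd]; exact hm
  rw [h1]; exact hdm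

theorem one_sub_X_pow_eq (d : ℕ) (hd : 0 < d) :
    ∃ B : (ZMod 2)[X], B.eval 1 ≠ 0 ∧ (1 - X ^ d : (ZMod 2)[X]) =
      (X - C 1) ^ (2 ^ padicValNat 2 d) * B := by
  obtain ⟨m, hm, hdm⟩ := exists_odd_factor d hd
  refine ⟨(∑ i ∈ Finset.range m, X ^ i) ^ (2 ^ padicValNat 2 d), ?_, ?_⟩
  · rw [eval_pow, eval_finsetSum]
    simp only [eval_pow, eval_X, one_pow, Finset.sum_const, Finset.card_range, nsmul_eq_mul,
      mul_one]
    rw [ZMod.natCast_eq_one_iff_odd.mpr hm, one_pow]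
    exact one_ne_zero
  · have h1 : (X ^ m - 1 : (ZMod 2)[X]) = (X - 1) * ∑ i ∈ Finset.range m, X ^ i :=
      (mul_geom_sum X m).symm
    have h2 : (1 - X ^ d : (ZMod 2)[X]) = (X ^ m - 1) ^ (2 ^ padicValNat 2 d) := by
      rw [sub_pow_char_pow, one_pow, ← pow_mul]
      have : m * 2 ^ padicValNat 2 d = d := by rw [mul_comm]; exact hdm.symm
      rw [this]
      linear_combination (1 - X ^ d) * two_eq_zero'
    rw [h2, h1, mul_pow, C_1]

theorem kap_eq [Finite F] (W : WeierstrassCurve K) (v : Place F K) :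
    ∃ B : (ZMod 2)[X], B.eval 1 ≠ 0 ∧ kap W v = (X - C 1) ^ (contrib W v) * B := by
  obtain ⟨B, hB, h⟩ := one_sub_X_pow_eq v.deg (deg_pos v)
  rw [kap, contrib]
  split_ifs
  · exact ⟨1, by simp, by simp⟩
  · exact ⟨B, hB, h⟩
  · refine ⟨B ^ 2, by rw [eval_pow]; exact pow_ne_zero 2 hB, ?_⟩
    rw [h, mul_pow, ← pow_mul, Place.weight, mul_comm 2]

theorem prod_kap_eq [Finite F] (W : WeierstrassCurve K) (S : Finset (Place F K)) :
    ∃ B : (ZMod 2)[X], B.eval 1 ≠ 0 ∧
      ∏ v ∈ S, kap W v = (X - C 1) ^ (∑ v ∈ S, contrib W v) * B := by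
  classical
  induction S using Finset.induction_on with
  | empty => exact ⟨1, by simp, by simp⟩
  | insert v S hv ih =>
    obtain ⟨B, hB, h⟩ := ih
    obtain ⟨B', hB', h'⟩ := kap_eq W v
    refine ⟨B' * B, by rw [eval_mul]; exact mul_ne_zero hB' hB, ?_⟩
    rw [Finset.prod_insert hv, Finset.sum_insert hv, h, h', pow_add]
    ring

/-- divisibility of `P` by a power of `1 - q T` -/
theorem pow_dvd_of_ordAt (q : ℕ) (hq : q ≠ 0) (P : ℤ[X]) :
    (1 - C (q : ℤ) * X) ^ (ordAt q P) ∣ P := by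
  have hdvd : (X - C ((q : ℚ)⁻¹)) ^ (ordAt q P) ∣ P.map (Int.castRingHom ℚ) :=
    pow_rootMultiplicity_dvd _ _
  have hq' : (q : ℚ) ≠ 0 := Nat.cast_ne_zero.mpr hq
  have h1 : ((1 - C (q : ℤ) * X) ^ (ordAt q P) : ℤ[X]).map (Int.castRingHom ℚ) =
      C ((-(q : ℚ)) ^ (ordAt q P)) * (X - C ((q : ℚ)⁻¹)) ^ (ordAt q P) := by
    rw [Polynomial.map_pow, C_pow, ← mul_pow]
    congr 1
    rw [Polynomial.map_sub, Polynomial.map_one, Polynomial.map_mul, Polynomial.map_C,
      Polynomial.map_X, mul_sub, ← C_mul, neg_mul, mul_inv_cancel₀ hq', C_neg, C_neg, C_1]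
    simp only [eq_intCast, Int.cast_natCast]
    ring
  have hprim : ∀ Q : ℤ[X], Q.coeff 0 = 1 → Q.IsPrimitive := by
    intro Q hQ r hr
    rw [C_dvd_iff_dvd_coeff] at hr
    have := hr 0
    rw [hQ] at this
    exact isUnit_of_dvd_one this
  have hc : ((1 - C (q : ℤ) * X) ^ (ordAt q P) : ℤ[X]).coeff 0 = 1 := by
    rw [coeff_zero_eq_eval_zero]; simp
  apply (IsPrimitive.Int.dvd_iff_map_cast_dvd_map_cast _ _ (hprim _ hc)).mpr
  rw [h1]
  have hu : IsUnit (C ((-(q : ℚ)) ^ (ordAt q P))) :=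
    isUnit_C.mpr (pow_ne_zero _ (neg_ne_zero.mpr hq')).isUnit
  exact (hu.mul_left_dvd).mpr hdvd

/-- **Analytic 2-descent.** -/
theorem analytic_two_descent [Finite F] (hF : Odd (Nat.card F)) (W : WeierstrassCurve K)
    (hT : HasTwo W) (S : Finset (Place F K))
    (hS : ∀ v ∉ S, (W.minimal v.O).HasGoodReduction v.O)
    (PK : ℤ[X]) (Z : PowerSeries ℤ) (hZ : IsZeta F K Z)
    (hPK : Z * ((1 - PowerSeries.X) * (1 - PowerSeries.C (Nat.card F : ℤ) * PowerSeries.X)) =
      (PK : PowerSeries ℤ))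
    (P : ℤ[X]) (hP : IsLFunction F W (P : PowerSeries ℤ)) :
    ordAt (Nat.card F) P + 4 ≤ ∑ v ∈ S, contrib W v +
      2 * (PK.map (Int.castRingHom (ZMod 2))).rootMultiplicity 1 := by
  have hL := L_mod_two hF W hT S hS Z P hZ hP
  obtain ⟨B, hB, hprod⟩ := prod_kap_eq W S
  set Pb := P.map (Int.castRingHom (ZMod 2)) with hPb
  set Kb := PK.map (Int.castRingHom (ZMod 2)) with hKb
  have hq1 : ((Nat.card F : ℤ) : ZMod 2) = 1 := by
    rw [Int.cast_natCast]; exact ZMod.natCast_eq_one_iff_odd.mpr hF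
  have hneg : ∀ f : (ZMod 2)[X], -f = f := fun f => by linear_combination (-f) * two_eq_zero'
  -- zeta mod 2
  have hZ2 : red2 Z * (((X - C 1) ^ 2 : (ZMod 2)[X]) : PowerSeries (ZMod 2)) =
      (Kb : PowerSeries (ZMod 2)) := by
    have h := congrArg red2 hPK
    rw [red2_coe, map_mul, ← hKb] at h
    rw [← h]
    congr 1
    have e1 : red2 PowerSeries.X = PowerSeries.X := by rw [red2, PowerSeries.map_X]
    have e2 : red2 (PowerSeries.C (Nat.card F : ℤ)) = 1 := by
      rw [red2, PowerSeries.map_C, eq_intCast, hq1, map_one]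
    have e3 : ((X - C 1) ^ 2 : (ZMod 2)[X]) = (1 - X) * (1 - X) := by
      rw [C_1]; ring
    rw [e3, Polynomial.coe_mul, Polynomial.coe_sub, Polynomial.coe_one, Polynomial.coe_X,
      map_mul, map_sub, map_sub, map_one, map_mul, e1, e2, one_mul]
  -- the polynomial identity
  have hid : Pb * (X - C 1) ^ 4 = Kb ^ 2 * ((X - C 1) ^ (∑ v ∈ S, contrib W v) * B) := by
    apply Polynomial.coe_injective (ZMod 2)
    rw [← hprod, Polynomial.coe_mul, Polynomial.coe_mul, Polynomial.coe_pow 2, ← hZ2]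
    rw [red2_coe, ← hPb] at hL
    rw [hL, show ((X - C 1) ^ 4 : (ZMod 2)[X]) = (X - C 1) ^ 2 * (X - C 1) ^ 2 by ring,
      Polynomial.coe_mul]
    ring
  -- constant coefficients
  have hP0 : P.coeff 0 = 1 := by
    have h1 := (hP.map (PowerSeries.constantCoeff (R := ℤ))
      (PowerSeries.WithPiTopology.continuous_constantCoeff ℤ))
    have h2 : (PowerSeries.constantCoeff (R := ℤ)) ∘ (fun v : Place F K => PowerSeries.invOfUnit
        ((Polynomial.expand ℤ v.deg (W.localPolynomial v.O) : ℤ[X]) : PowerSeries ℤ) 1)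
        = fun _ => 1 := by
      funext v
      simp [PowerSeries.constantCoeff_invOfUnit]
    rw [h2] at h1
    have h3 := h1.unique hasProd_one
    rw [Polynomial.constantCoeff_coe] at h3
    exact h3
  have hK0 : Kb ≠ 0 := by
    intro h0
    have hPb0 : Pb = 0 := by
      rw [h0] at hid
      have : Pb * (X - C 1) ^ 4 = 0 := by rw [hid]; ring
      exact (mul_eq_zero.mp this).resolve_right (pow_ne_zero _ (X_sub_C_ne_zero _))
    have : Pb.coeff 0 = 1 := by rw [hPb, coeff_map, hP0]; simp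
    rw [hPb0, coeff_zero] at this
    exact zero_ne_one this
  have hB0 : B ≠ 0 := by rintro rfl; simp at hB
  -- divisibility
  have hdvd := pow_dvd_of_ordAt (Nat.card F) (by rintro h; rw [h] at hF; simp at hF) P
  have hdvd2 : (X - C 1 : (ZMod 2)[X]) ^ (ordAt (Nat.card F) P) ∣ Pb := by
    have h := Polynomial.map_dvd (Int.castRingHom (ZMod 2)) hdvd
    rw [Polynomial.map_pow, Polynomial.map_sub, Polynomial.map_one, Polynomial.map_mul,
      Polynomial.map_C, Polynomial.map_X] at h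
    have e : (1 - C ((Int.castRingHom (ZMod 2)) (Nat.card F : ℤ)) * X : (ZMod 2)[X]) =
        X - C 1 := by
      have e4 : (Int.castRingHom (ZMod 2)) (Nat.card F : ℤ) = 1 := hq1
      rw [e4, C_1, one_mul, ← hneg (X - 1)]; ring
    rw [e] at h
    exact h
  have hdvd3 : (X - C 1 : (ZMod 2)[X]) ^ (ordAt (Nat.card F) P + 4) ∣
      Kb ^ 2 * ((X - C 1) ^ (∑ v ∈ S, contrib W v) * B) := by
    rw [← hid, pow_add]
    exact mul_dvd_mul hdvd2 dvd_rfl
  have hne : Kb ^ 2 * ((X - C 1) ^ (∑ v ∈ S, contrib W v) * B) ≠ 0 :=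
    mul_ne_zero (pow_ne_zero _ hK0)
      (mul_ne_zero (pow_ne_zero _ (X_sub_C_ne_zero _)) hB0)
  have hle := (le_rootMultiplicity_iff hne).mpr hdvd3
  rw [rootMultiplicity_mul hne, rootMultiplicity_mul (right_ne_zero_of_mul hne),
    rootMultiplicity_X_sub_C_pow, rootMultiplicity_eq_zero hB, pow_two,
    rootMultiplicity_mul (mul_ne_zero hK0 hK0)] at hle
  omega

end FFBSD
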