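import Mathlib

/-!
# The `L`-function of an elliptic curve over a function field (MP_ff7320_nt)

Definitions shared by all files. `F` is the field of constants, `K` a field containing `F`
(a function field in one variable).
-/

open Polynomial
open scoped PowerSeries.WithPiTopology

namespace FFBSD

/-- A place of `K/F`: a discrete valuation ring of `K` that contains `F` and whose residue
field is finite over `F`. (`ValuationSubring K` = subrings `O` of `K` with `x ∈ O` or
`x⁻¹ ∈ O` for all `x`.) -/
structure Place (F K : Type) [Field F] [Field K] [Algebra F K] where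
  /-- the valuation ring -/
  O : ValuationSubring K
  dvr : IsDiscreteValuationRing O
  const : ∀ a : F, algebraMap F K a ∈ O
  /-- the residue field is finite over `F` -/
  fin : letI : Algebra F O := ((algebraMap F K).codRestrict O const).toAlgebra
    Module.Finite F (IsLocalRing.ResidueField O)

attribute [instance] Place.dvr

namespace Place

variable {F K : Type} [Field F] [Field K] [Algebra F K]

instance (v : Place F K) : Algebra F v.O := ((algebraMap F K).codRestrict v.O v.const).toAlgebra

instance (v : Place F K) : Module.Finite F (IsLocalRing.ResidueField v.O) := v.fin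

/-- the residue field of a place -/
abbrev κ (v : Place F K) : Type := IsLocalRing.ResidueField v.O

/-- the degree of a place: the degree of the residue field over `F` -/
noncomputable def deg (v : Place F K) : ℕ := Module.finrank F v.κ

/-- `x` has a zero at `v` -/
def IsZero (v : Place F K) (x : K) : Prop := v.O.valuation x < 1

/-- `x` has a pole at `v` -/
def IsPole (v : Place F K) (x : K) : Prop := 1 < v.O.valuation x

/-- `x ≠ 0` has odd order at `v` -/
def OddOrder (v : Place F K) (x : K) : Prop := ∀ y : K, v.O.valuation x ≠ v.O.valuation (y ^ 2)

end Place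

variable (F K : Type) [Field F] [Field K] [Algebra F K]

/-- `Z` is the zeta function of `K/F` (as a power series in `T`):
`Z = ∏_v (1 - T ^ deg v)⁻¹`. -/
def IsZeta (Z : PowerSeries ℤ) : Prop :=
  HasProd (fun v : Place F K => PowerSeries.invOfUnit (1 - PowerSeries.X ^ v.deg) 1) Z

variable {K}

/-- `L` is the `L`-function of the Weierstrass curve `W` over `K/F` (as a power series in `T`):
`L = ∏_v (L_v(T ^ deg v))⁻¹`, where `L_v` is Mathlib's local polynomial of `W` at `v`
(`1 - a T + q_v T²`, `1 - T`, `1 + T`, `1` for good, split multiplicative, non-split
multiplicative, additive reduction). -/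
def IsLFunction (W : WeierstrassCurve K) (L : PowerSeries ℤ) : Prop :=
  HasProd (fun v : Place F K => PowerSeries.invOfUnit
    ((Polynomial.expand ℤ v.deg (W.localPolynomial v.O) : ℤ[X]) : PowerSeries ℤ) 1) L

/-- order of vanishing at `T = 1/q` of a polynomial with integer coefficients -/
noncomputable def ordAt (q : ℕ) (P : ℤ[X]) : ℕ :=
  (P.map (Int.castRingHom ℚ)).rootMultiplicity ((q : ℚ)⁻¹)

/-- The Legendre type curve `y² = x (x + 1) (x + h)`. -/
def leg {A : Type*} [CommRing A] (h : A) : WeierstrassCurve A := ⟨0, 1 + h, 0, h, 0⟩

/-- the weight `2 ^ v₂(deg v)` of a place (it is `1` if the degree is odd) -/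
noncomputable def Place.weight {F K : Type} [Field F] [Field K] [Algebra F K] (v : Place F K) :
    ℕ := 2 ^ padicValNat 2 v.deg

end FFBSD
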