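import Pool.Agent.LibFFBSD.Parity

/-!
# The `L`-function modulo 2 and the resulting bound for the analytic rank
-/

open Polynomial WeierstrassCurve IsLocalRing
open scoped PowerSeries.WithPiTopology

namespace FFBSD

variable {F K : Type} [Field F] [Field K] [Algebra F K]

section places

theorem card_kappa [Finite F] (v : Place F K) : Nat.card v.κ = Nat.card F ^ v.deg :=
  Module.natCard_eq_pow_finrank

theorem odd_card_kappa [Finite F] (hF : Odd (Nat.card F)) (v : Place F K) :
    Odd (Nat.card v.κ) := by
  rw [card_kappa]; exact hF.pow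

theorem finite_kappa [Finite F] (v : Place F K) : Finite v.κ :=
  Module.finite_of_finite F

theorem deg_pos [Finite F] (v : Place F K) : 0 < v.deg :=
  Module.finrank_pos

theorem isUnit_two [Finite F] (hF : Odd (Nat.card F)) (v : Place F K) : IsUnit (2 : v.O) := by
  rw [← residue_ne_zero_iff_isUnit, map_ofNat]
  intro h
  have hodd := odd_card_kappa hF v
  have : Finite v.κ := finite_kappa v
  have hchar : (Nat.card v.κ : v.κ) = 0 := by
    have := Fintype.ofFinite v.κ
    rw [Nat.card_eq_fintype_card]
    exact FiniteField.cast_card_eq_zero _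
  obtain ⟨m, hm⟩ := hodd
  rw [hm] at hchar
  push_cast at hchar
  rw [h, zero_mul, zero_add] at hchar
  exact one_ne_zero hchar

end places

section loc

open Classical in
/-- the correction factor at `v` -/
noncomputable def kap (W : WeierstrassCurve K) (v : Place F K) : (ZMod 2)[X] :=
  if (W.minimal v.O).HasGoodReduction v.O then 1
  else if (W.minimal v.O).HasMultiplicativeReduction v.O then 1 - X ^ v.deg
  else (1 - X ^ v.deg) ^ 2

theorem two_eq_zero' : (2 : (ZMod 2)[X]) = 0 := by
  have : (2 : ZMod 2) = 0 := by decide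
  rw [← Polynomial.C_ofNat, this, Polynomial.C_0]

theorem good_mod_two (a b : ℤ) (ha : (a : ZMod 2) = 0) (hb : (b : ZMod 2) = 1) (d : ℕ) :
    (Polynomial.expand ℤ d (1 - C a * X + C b * X ^ 2)).map (Int.castRingHom (ZMod 2))
      = (1 - X ^ d) ^ 2 := by
  simp only [map_sub, map_add, map_mul, map_pow, map_one, expand_X, expand_C,
      Polynomial.map_sub, Polynomial.map_add, Polynomial.map_mul, Polynomial.map_pow,
      Polynomial.map_one, Polynomial.map_X, Polynomial.map_C, Int.coe_castRingHom, ha, hb]
  simp only [Polynomial.C_0]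
  linear_combination X ^ d * two_eq_zero'

theorem split_mod_two (d : ℕ) :
    (Polynomial.expand ℤ d (1 - X)).map (Int.castRingHom (ZMod 2)) = 1 - X ^ d := by
  simp only [map_sub, map_one, expand_X, Polynomial.map_sub, Polynomial.map_one,
      Polynomial.map_pow, Polynomial.map_X]

theorem nonsplit_mod_two (d : ℕ) :
    (Polynomial.expand ℤ d (1 + X)).map (Int.castRingHom (ZMod 2)) = 1 - X ^ d := by
  simp only [map_add, map_one, expand_X, Polynomial.map_add, Polynomial.map_one,
      Polynomial.map_pow, Polynomial.map_X]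
  linear_combination X ^ d * two_eq_zero'

theorem local_mod_two [Finite F] (hF : Odd (Nat.card F)) (W : WeierstrassCurve K)
    (hT : HasTwo W) (v : Place F K) :
    (Polynomial.expand ℤ v.deg (W.localPolynomial v.O)).map (Int.castRingHom (ZMod 2))
      * kap W v = (1 - X ^ v.deg) ^ 2 := by
  classical
  rw [localPolynomial, kap]
  have hT' : HasTwo (W.minimal v.O) := hT.smul _
  split_ifs with hg hs hm
  · -- good reduction
    have heven := two_torsion_reduction v.O (isUnit_two hF v) (W.minimal v.O) hg hT'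
    have hodd : Odd (Nat.card (ResidueField v.O)) := odd_card_kappa hF v
    rw [mul_one]
    refine good_mod_two _ _ ?_ ?_ _
    · push_cast
      rw [ZMod.natCast_eq_one_iff_odd.mpr hodd, ZMod.natCast_eq_zero_iff_even.mpr heven]
      decide
    · rw [Int.cast_natCast]; exact ZMod.natCast_eq_one_iff_odd.mpr hodd
  · -- split multiplicative
    rw [split_mod_two, ← pow_two]
  · rw [nonsplit_mod_two, ← pow_two]
  · rw [map_one, Polynomial.map_one, one_mul]

end loc

section glob

/-- reduction mod 2 of power series -/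
noncomputable def red2 : PowerSeries ℤ →+* PowerSeries (ZMod 2) :=
  PowerSeries.map (Int.castRingHom (ZMod 2))

theorem red2_coe (P : ℤ[X]) :
    red2 (P : PowerSeries ℤ) = ((P.map (Int.castRingHom (ZMod 2)) : (ZMod 2)[X]) :
      PowerSeries (ZMod 2)) := by
  rw [red2, Polynomial.polynomial_map_coe]

local instance : TopologicalSpace (ZMod 2) := ⊥
local instance : DiscreteTopology (ZMod 2) := ⟨rfl⟩

theorem continuous_red2 : Continuous red2 := by
  rw [continuous_iff_continuousAt]
  intro f
  rw [ContinuousAt, PowerSeries.WithPiTopology.tendsto_iff_coeff_tendsto]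
  intro d
  simp only [red2, PowerSeries.coeff_map]
  have h1 : Continuous (fun n : ℤ => Int.castRingHom (ZMod 2) n) := continuous_of_discreteTopology
  exact (h1.comp (PowerSeries.WithPiTopology.continuous_coeff ℤ d)).continuousAt

theorem coe_one_sub_X_pow (d : ℕ) :
    (((1 - X ^ d : (ZMod 2)[X])) : PowerSeries (ZMod 2)) = 1 - PowerSeries.X ^ d := by
  rw [Polynomial.coe_sub, Polynomial.coe_one, Polynomial.coe_pow, Polynomial.coe_X]

theorem euler_eq [Finite F] (hF : Odd (Nat.card F)) (W : WeierstrassCurve K)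
    (hT : HasTwo W) (v : Place F K) :
    red2 (PowerSeries.invOfUnit
      ((Polynomial.expand ℤ v.deg (W.localPolynomial v.O) : ℤ[X]) : PowerSeries ℤ) 1) =
    red2 (PowerSeries.invOfUnit (1 - PowerSeries.X ^ v.deg) 1) ^ 2 * (kap W v : PowerSeries (ZMod 2)) := by
  have hd := deg_pos v
  have h1 : (1 - PowerSeries.X ^ v.deg : PowerSeries ℤ) *
      PowerSeries.invOfUnit (1 - PowerSeries.X ^ v.deg) 1 = 1 := by
    apply PowerSeries.mul_invOfUnit
    simp [hd.ne']
  have hc : PowerSeries.constantCoeff
      ((Polynomial.expand ℤ v.deg (W.localPolynomial v.O) : ℤ[X]) : PowerSeries ℤ) =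
        ((1 : ℤˣ) : ℤ) := by
    rw [Polynomial.constantCoeff_coe, Polynomial.coeff_expand hd]
    simp only [dvd_zero, if_true, Nat.zero_div, Units.val_one]
    rw [localPolynomial]
    classical
    split_ifs <;> simp
  have h2 := PowerSeries.mul_invOfUnit _ 1 hc
  set e := PowerSeries.invOfUnit
    ((Polynomial.expand ℤ v.deg (W.localPolynomial v.O) : ℤ[X]) : PowerSeries ℤ) 1
  set z := PowerSeries.invOfUnit (1 - PowerSeries.X ^ v.deg : PowerSeries ℤ) 1
  have h1' := congrArg red2 h1
  have h2' := congrArg red2 h2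
  rw [map_mul, map_one] at h1' h2'
  have h3 : red2 (1 - PowerSeries.X ^ v.deg) = 1 - PowerSeries.X ^ v.deg := by
    rw [map_sub, map_one, map_pow, red2, PowerSeries.map_X]
  rw [h3] at h1'
  rw [red2_coe] at h2'
  have h4 := congrArg (fun p : (ZMod 2)[X] => (p : PowerSeries (ZMod 2)))
    (local_mod_two hF W hT v)
  simp only [Polynomial.coe_mul, Polynomial.coe_pow, coe_one_sub_X_pow] at h4
  set A := (((Polynomial.expand ℤ v.deg (W.localPolynomial v.O)).map
    (Int.castRingHom (ZMod 2)) : (ZMod 2)[X]) : PowerSeries (ZMod 2))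
  set B := (1 - PowerSeries.X ^ v.deg : PowerSeries (ZMod 2))
  calc red2 e = red2 e * (B * red2 z) ^ 2 := by rw [h1']; ring
    _ = red2 e * (A * (kap W v : PowerSeries (ZMod 2))) * red2 z ^ 2 := by rw [h4]; ring
    _ = (A * red2 e) * (red2 z ^ 2 * (kap W v : PowerSeries (ZMod 2))) := by ring
    _ = _ := by rw [h2', one_mul]

/-- the product formula mod 2 -/
theorem L_mod_two [Finite F] (hF : Odd (Nat.card F)) (W : WeierstrassCurve K) (hT : HasTwo W)
    (S : Finset (Place F K)) (hS : ∀ v ∉ S, (W.minimal v.O).HasGoodReduction v.O)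
    (Z L : PowerSeries ℤ) (hZ : IsZeta F K Z) (hL : IsLFunction F W L) :
    red2 L = red2 Z ^ 2 * ((∏ v ∈ S, kap W v : (ZMod 2)[X]) : PowerSeries (ZMod 2)) := by
  have : T2Space (PowerSeries (ZMod 2)) := PowerSeries.WithPiTopology.instT2Space (ZMod 2)
  have : IsTopologicalSemiring (PowerSeries (ZMod 2)) :=
    PowerSeries.WithPiTopology.instIsTopologicalSemiring (ZMod 2)
  have h1 := hL.map red2 continuous_red2
  have h2 := hZ.map red2 continuous_red2
  have h3 : HasProd (fun v : Place F K => (kap W v : PowerSeries (ZMod 2)))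
      ((∏ v ∈ S, kap W v : (ZMod 2)[X]) : PowerSeries (ZMod 2)) := by
    have : ((∏ v ∈ S, kap W v : (ZMod 2)[X]) : PowerSeries (ZMod 2)) =
        ∏ v ∈ S, (kap W v : PowerSeries (ZMod 2)) := by
      rw [← Polynomial.coeToPowerSeries.ringHom_apply, map_prod]
      rfl
    rw [this]
    apply hasProd_prod_of_ne_finset_one
    intro v hv
    rw [kap, if_pos (hS v hv), Polynomial.coe_one]
  have h4 := (h2.mul h2).mul h3
  have h5 : (fun v : Place F K => (red2 ∘ fun v : Place F K =>
      PowerSeries.invOfUnit (1 - PowerSeries.X ^ v.deg) 1) v *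
      (red2 ∘ fun v : Place F K => PowerSeries.invOfUnit (1 - PowerSeries.X ^ v.deg) 1) v *
      (kap W v : PowerSeries (ZMod 2))) = red2 ∘ fun v : Place F K => PowerSeries.invOfUnit
    ((Polynomial.expand ℤ v.deg (W.localPolynomial v.O) : ℤ[X]) : PowerSeries ℤ) 1 := by
    funext v
    simp only [Function.comp_apply]
    rw [euler_eq hF W hT v, pow_two]
  rw [h5] at h4
  rw [h1.unique h4, pow_two]

end glob

end FFBSD
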