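import Pool.Agent.LibFFBSD.Defs

/-!
# Parity of the number of points of the reduction of a curve with a rational 2-torsion point
-/

open Polynomial WeierstrassCurve IsLocalRing

namespace FFBSD

section

variable {K : Type*} [Field K]

/-- the `2`-division polynomial of `W` has a root in `K` -/
def HasTwo {K : Type*} [Field K] (W : WeierstrassCurve K) : Prop :=
  ∃ x : K, 4 * x ^ 3 + W.b₂ * x ^ 2 + 2 * W.b₄ * x + W.b₆ = 0

theorem hasTwo_of_point [DecidableEq K] (W : WeierstrassCurve K)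
    (h : ∃ P : W.toAffine.Point, P ≠ 0 ∧ 2 • P = 0) : HasTwo W := by
  obtain ⟨P, hP0, hP⟩ := h
  have hneg : P = -P := by
    rw [two_nsmul] at hP
    exact eq_neg_of_add_eq_zero_left hP
  rcases P with _ | ⟨x, y, hxy⟩
  · exact absurd rfl hP0
  · rw [Affine.Point.neg_some] at hneg
    simp only [Affine.Point.some.injEq, true_and] at hneg
    rw [Affine.negY] at hneg
    have heq := hxy.left
    rw [Affine.equation_iff] at heq
    refine ⟨x, ?_⟩
    simp only [b₂, b₄, b₆]
    have h2 : 2 * y + W.a₁ * x + W.a₃ = 0 := by linear_combination hneg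
    linear_combination (2 * y + W.a₁ * x + W.a₃) * h2 - 4 * heq

theorem HasTwo.smul {W : WeierstrassCurve K} (h : HasTwo W) (C : VariableChange K) :
    HasTwo (C • W) := by
  obtain ⟨x, hx⟩ := h
  refine ⟨(C.u⁻¹ : Kˣ) ^ 2 * (x - C.r), ?_⟩
  rw [variableChange_b₂, variableChange_b₄, variableChange_b₆]
  linear_combination (C.u⁻¹ : Kˣ) ^ 6 * hx

end

section

variable (R : Type*) [CommRing R] [IsDomain R] [IsDiscreteValuationRing R]
variable {K : Type*} [Field K] [Algebra R K] [IsFractionRing R K]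

theorem two_torsion_reduction (h2 : IsUnit (2 : R)) (W : WeierstrassCurve K) [hW : IsMinimal R W]
    (hg : HasGoodReduction R W) (h : HasTwo W) :
    Even (Nat.card (W.reduction R).toAffine.Point) := by
  classical
  obtain ⟨x, hx⟩ := h
  -- `x` is integral
  obtain ⟨u, hu⟩ := h2
  set I := integralModel R W with hI
  have hint : IsIntegral R x := by
    refine ⟨X ^ 3 + Polynomial.C (↑u⁻¹ ^ 2 * I.b₂) * X ^ 2 + Polynomial.C (↑u⁻¹ * I.b₄) * X
      + Polynomial.C (↑u⁻¹ ^ 2 * I.b₆), ?_, ?_⟩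
    · monicity!
    · simp only [eval₂_add, eval₂_mul, eval₂_pow, eval₂_X, eval₂_C, map_mul, map_pow]
      rw [integralModel_b₂_eq, integralModel_b₄_eq, integralModel_b₆_eq]
      have h2' : algebraMap R K (↑u⁻¹ : R) * 2 = 1 := by
        rw [← map_ofNat (algebraMap R K) 2, ← map_mul, ← hu, Units.inv_mul, map_one]
      set w := algebraMap R K (↑u⁻¹ : R)
      linear_combination w ^ 2 * hx
        - (x ^ 3 * (w * 2 + 1) + w * W.b₄ * x) * h2'
  obtain ⟨x₀, rfl⟩ := IsIntegrallyClosed.isIntegral_iff.mp hint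
  have hx₀ : 4 * x₀ ^ 3 + I.b₂ * x₀ ^ 2 + 2 * I.b₄ * x₀ + I.b₆ = 0 := by
    apply IsFractionRing.injective R K
    simp only [map_add, map_mul, map_pow, map_zero, map_ofNat]
    rw [integralModel_b₂_eq, integralModel_b₄_eq, integralModel_b₆_eq]
    exact hx
  -- the point of the reduction
  set V := W.reduction R with hV
  have hVe : V.IsElliptic := (hasGoodReduction_iff_isElliptic_reduction R).mp hg
  set x₁ := residue R x₀ with hx₁
  set w₁ := residue R (↑u⁻¹ : R) with hw₁
  have h2w : w₁ * 2 = 1 := by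
    rw [hw₁, ← map_ofNat (residue R) 2, ← map_mul, ← hu, Units.inv_mul, map_one]
  have hVx : 4 * x₁ ^ 3 + V.b₂ * x₁ ^ 2 + 2 * V.b₄ * x₁ + V.b₆ = 0 := by
    have := congrArg (residue R) hx₀
    simp only [map_add, map_mul, map_pow, map_zero, map_ofNat] at this
    rw [hV, reduction, map_b₂, map_b₄, map_b₆]
    exact this
  set y₁ := - (w₁ * (V.a₁ * x₁ + V.a₃)) with hy₁
  have heq : V.toAffine.Equation x₁ y₁ := by
    rw [Affine.equation_iff]
    simp only [b₂, b₄, b₆] at hVx
    rw [hy₁]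
    linear_combination (w₁ ^ 2 - w₁) * hVx
      - (x₁ ^ 3 + V.a₂ * x₁ ^ 2 + V.a₄ * x₁ + V.a₆) * (w₁ * 2 - 1) * h2w
  have hns : V.toAffine.Nonsingular x₁ y₁ := by
    have := hVe
    exact (Affine.equation_iff_nonsingular (W := V.toAffine)).mp heq
  let Q : V.toAffine.Point := .some x₁ y₁ hns
  have hQ0 : Q ≠ 0 := by
    intro h
    exact Affine.Point.some_ne_zero _ h
  have hQ2 : 2 • Q = 0 := by
    rw [two_nsmul]
    apply add_eq_zero_iff_eq_neg.mpr
    show Q = -Q
    rw [Affine.Point.neg_some]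
    simp only [Q, Affine.Point.some.injEq, true_and]
    rw [Affine.negY, hy₁]
    linear_combination (V.a₁ * x₁ + V.a₃) * (-1) * h2w
  have hord : addOrderOf Q = 2 := addOrderOf_eq_prime hQ2 hQ0
  have := addOrderOf_dvd_natCard Q
  rw [hord] at this
  exact even_iff_two_dvd.mpr this

end

end FFBSD
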