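import Pool.Agent.LibFFBSD.Bound

/-!
# Reduction type of the minimal model from a given model; the curve `y² = x (x+1) (x + g ^ n)`
-/

open Polynomial WeierstrassCurve IsLocalRing IsDiscreteValuationRing
open IsDedekindDomain.HeightOneSpectrum (valuation_le_one valuation_lt_one_iff_mem)

namespace FFBSD

section

variable {R : Type*} [CommRing R] [IsDomain R] [IsDiscreteValuationRing R]
variable {K : Type*} [Field K] [Algebra R K] [IsFractionRing R K]

theorem val_eq_one_iff (r : R) : (IsDedekindDomain.HeightOneSpectrum.valuation K (maximalIdeal R)) (algebraMap R K r) = 1 ↔ IsUnit r := by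
  rw [← not_iff_not, ← mem_nonunits_iff, ← IsLocalRing.mem_maximalIdeal]
  have h := valuation_lt_one_iff_mem (K := K) (maximalIdeal R) r
  have hle := valuation_le_one (K := K) (maximalIdeal R) r
  constructor
  · intro hne
    exact h.mp (lt_of_le_of_ne hle hne)
  · intro hm
    exact (h.mpr hm).ne

theorem val_lt_one_iff (r : R) : (IsDedekindDomain.HeightOneSpectrum.valuation K (maximalIdeal R)) (algebraMap R K r) < 1 ↔ ¬ IsUnit r := by
  rw [← val_eq_one_iff (K := K)]
  exact ⟨fun h => h.ne, fun h => lt_of_le_of_ne (valuation_le_one (K := K) (maximalIdeal R) r) h⟩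

/-- minimality: no integral model has larger valuation of the discriminant -/
theorem val_disc_le (W : WeierstrassCurve K) (C : VariableChange K) (I : WeierstrassCurve R)
    (h : C • W = I⁄K) : (IsDedekindDomain.HeightOneSpectrum.valuation K (maximalIdeal R)) (algebraMap R K I.Δ) ≤ (IsDedekindDomain.HeightOneSpectrum.valuation K (maximalIdeal R)) (W.minimal R).Δ := by
  have hmin : IsMinimal R (W.minimal R) := inferInstance
  obtain ⟨D, hD⟩ : ∃ D : VariableChange K, D • W = W.minimal R := ⟨_, rfl⟩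
  have hmax := hmin.val_Δ_maximal
  have hCW : (C * D⁻¹) • W.minimal R = I⁄K := by
    rw [← hD, ← mul_smul, mul_assoc, inv_mul_cancel, mul_one, h]
  have hint : WeierstrassCurve.IsIntegral R ((C * D⁻¹) • W.minimal R) := by
    rw [hCW]; exact ⟨⟨I, rfl⟩⟩
  have h1 : valuation_Δ_aux R ((C * D⁻¹) • W.minimal R) ≤
      valuation_Δ_aux R ((1 : VariableChange K) • W.minimal R) := by
    rcases le_total (valuation_Δ_aux R ((C * D⁻¹) • W.minimal R))
      (valuation_Δ_aux R ((1 : VariableChange K) • W.minimal R)) with h' | h'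
    · exact h'
    · exact hmax.2 hint h'
  have h2 : ((valuation_Δ_aux R ((C * D⁻¹) • W.minimal R)) : WithZero (Multiplicative ℤ)) ≤
      (valuation_Δ_aux R ((1 : VariableChange K) • W.minimal R)) := h1
  rw [one_smul, valuation_Δ_aux_eq_of_isIntegral, valuation_Δ_aux_eq_of_isIntegral, hCW,
    baseChange, map_Δ] at h2
  exact h2

theorem good_of_model (W : WeierstrassCurve K) (C : VariableChange K) (I : WeierstrassCurve R)
    (h : C • W = I⁄K) (hΔ : IsUnit I.Δ) : (W.minimal R).HasGoodReduction R := by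
  have h1 := val_disc_le W C I h
  rw [(val_eq_one_iff (K := K) I.Δ).mpr hΔ] at h1
  obtain ⟨r, hr⟩ := Δ_integral_of_isIntegral R (W.minimal R)
  have h2 : (IsDedekindDomain.HeightOneSpectrum.valuation K (maximalIdeal R)) (W.minimal R).Δ ≤ 1 := by
    rw [← hr]; exact valuation_le_one (K := K) (maximalIdeal R) r
  exact ⟨le_antisymm h2 h1⟩

theorem mult_of_model (W : WeierstrassCurve K) (C : VariableChange K) (I : WeierstrassCurve R)
    (h : C • W = I⁄K) (hΔ : ¬ IsUnit I.Δ) (hΔ0 : I.Δ ≠ 0) (hc : IsUnit I.c₄) :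
    (W.minimal R).HasMultiplicativeReduction R := by
  have h1 := val_disc_le W C I h
  obtain ⟨D, hD⟩ : ∃ D : VariableChange K, D • W = W.minimal R := ⟨_, rfl⟩
  have hE : (D * C⁻¹) • I⁄K = W.minimal R := by
    rw [← h, ← mul_smul, mul_assoc, inv_mul_cancel, mul_one, hD]
  set E := D * C⁻¹ with hEdef
  have hΔE : (W.minimal R).Δ = ((E.u⁻¹ : Kˣ) : K) ^ 12 * algebraMap R K I.Δ := by
    rw [← hE, variableChange_Δ, baseChange, map_Δ]
  have hcE : (W.minimal R).c₄ = ((E.u⁻¹ : Kˣ) : K) ^ 4 * algebraMap R K I.c₄ := by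
    rw [← hE, variableChange_c₄, baseChange, map_c₄]
  set a := (IsDedekindDomain.HeightOneSpectrum.valuation K (maximalIdeal R)) ((E.u⁻¹ : Kˣ) : K) with ha
  have hv0 : (IsDedekindDomain.HeightOneSpectrum.valuation K (maximalIdeal R)) (algebraMap R K I.Δ) ≠ 0 := by
    rw [ne_eq, map_eq_zero]
    intro h0
    exact hΔ0 ((map_eq_zero_iff _ (IsFractionRing.injective R K)).mp h0)
  have hvc : (IsDedekindDomain.HeightOneSpectrum.valuation K (maximalIdeal R)) (algebraMap R K I.c₄) = 1 := (val_eq_one_iff (K := K) _).mpr hc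
  have ha1 : 1 ≤ a := by
    by_contra hlt
    push_neg at hlt
    rw [hΔE, map_mul, map_pow, ← ha] at h1
    have h12 : a ^ 12 < 1 := pow_lt_one₀ zero_le hlt (by norm_num)
    have h3 : a ^ 12 * (IsDedekindDomain.HeightOneSpectrum.valuation K (maximalIdeal R)) (algebraMap R K I.Δ) < 1 * (IsDedekindDomain.HeightOneSpectrum.valuation K (maximalIdeal R)) (algebraMap R K I.Δ) :=
      mul_lt_mul_of_pos_right h12 (zero_lt_iff.mpr hv0)
    rw [one_mul] at h3
    exact absurd h1 (not_le.mpr h3)
  have hc1 : (IsDedekindDomain.HeightOneSpectrum.valuation K (maximalIdeal R)) (W.minimal R).c₄ ≤ 1 := by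
    have := integralModel_c₄_eq R (W.minimal R)
    rw [← this]; exact valuation_le_one (K := K) (maximalIdeal R) _
  have hc2 : (IsDedekindDomain.HeightOneSpectrum.valuation K (maximalIdeal R)) (W.minimal R).c₄ = a ^ 4 := by
    rw [hcE, map_mul, map_pow, hvc, mul_one]
  have ha2 : a = 1 := by
    apply le_antisymm _ ha1
    by_contra hlt
    push_neg at hlt
    have : 1 < a ^ 4 := one_lt_pow₀ hlt (by norm_num)
    rw [← hc2] at this
    exact absurd hc1 (not_le.mpr this)
  refine ⟨?_, ?_⟩
  · rw [hΔE, map_mul, map_pow, ← ha, ha2, one_pow, one_mul]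
    exact (val_lt_one_iff (K := K) _).mpr hΔ
  · rw [hc2, ha2, one_pow]

end

end FFBSD
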